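import Pool.Agent.Helper27.BG.St3
import Pool.Agent.Helper90.MT.S1
import Pool.Agent.Helper90.MT.QD
import Pool.Agent.Helper90.MT.Tensor
import Pool.Agent.Helper90.MT.Var
import Pool.Agent.Helper90.MT.FormD
import Pool.Agent.Helper90.MT.CntD

/-!
# Project BG: module MIN (the sum over all integers)
-/

set_option autoImplicit false

noncomputable section

namespace Pool.Agent.Helper27.BG

open Finset MeasureTheory Filter
open Pool.Agent.Helper90.MT (lam mat wt szA prt szU VV DD piDD Ok EqD Avd)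
open Pool.Agent.Helper60.GP (IsB JJ)
open Pool.Agent.Helper15.AB (Th)

private theorem SS_MIN (W : ℕ) (hW : 0 < W) : ∃ M₁ : ℕ, ∀ M ≥ M₁, 1 ≤ SS W M := by
  have hc : (0 : ℝ) < (W.totient : ℝ) / W :=
    div_pos (by exact_mod_cast Nat.totient_pos.2 hW) (by exact_mod_cast hW)
  have h1 : Tendsto (fun M : ℕ => SS W M) atTop atTop := by
    unfold SS RR
    refine Tendsto.const_mul_atTop hc ?_
    refine Real.tendsto_log_atTop.comp ?_
    exact (tendsto_rpow_atTop (by norm_num)).comp tendsto_natCast_atTop_atTop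
  exact eventually_atTop.1 (h1.eventually_ge_atTop 1)

private theorem pow_MIN (K c : ℝ) (hc : 0 < c) : ∃ M₁ : ℕ, ∀ M ≥ M₁,
    K * (M : ℝ) ^ (3 / 5 : ℝ) ≤ c * M := by
  have h1 : Tendsto (fun M : ℕ => (M : ℝ) ^ (2 / 5 : ℝ)) atTop atTop :=
    (tendsto_rpow_atTop (by norm_num)).comp tendsto_natCast_atTop_atTop
  obtain ⟨M₁, h2⟩ := eventually_atTop.1 (h1.eventually_ge_atTop (K / c))
  refine ⟨max M₁ 1, fun M hM => ?_⟩
  have h3 := h2 M (le_trans (le_max_left _ _) hM)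
  have hM1 : (1 : ℕ) ≤ M := le_trans (le_max_right _ _) hM
  have hM0 : (0 : ℝ) < M := by exact_mod_cast hM1
  have h4 : (M : ℝ) = (M : ℝ) ^ (2 / 5 : ℝ) * (M : ℝ) ^ (3 / 5 : ℝ) := by
    rw [← Real.rpow_add hM0]
    norm_num
  have h5 : K ≤ c * (M : ℝ) ^ (2 / 5 : ℝ) := by
    rw [div_le_iff₀ hc] at h3
    linarith
  calc K * (M : ℝ) ^ (3 / 5 : ℝ) ≤ (c * (M : ℝ) ^ (2 / 5 : ℝ)) * (M : ℝ) ^ (3 / 5 : ℝ) :=
        mul_le_mul_of_nonneg_right h5 (by positivity)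
    _ = c * ((M : ℝ) ^ (2 / 5 : ℝ) * (M : ℝ) ^ (3 / 5 : ℝ)) := by ring
    _ = c * M := by rw [← h4]

private theorem err_MIN (B : ℝ) (hB : 0 < B) (M : ℕ) (hM : 1 ≤ M) (s : ℝ) (hs : 0 ≤ s)
    (h1 : s ≤ B * (RR M ^ (1055 / 1000 : ℝ)) *
      (1 + Real.log (RR M ^ (1055 / 1000 : ℝ))) ^ (2 * 49)) :
    s ^ 2 ≤ B ^ 2 * 1001 ^ 196 * (M : ℝ) ^ (3 / 5 : ℝ) := by
  have hM0 : (1 : ℝ) ≤ M := by exact_mod_cast hM
  have hM00 : (0 : ℝ) < M := by linarith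
  have hR1 : 1 ≤ RR M := by
    unfold RR
    exact Real.one_le_rpow hM0 (by norm_num)
  set Z := RR M ^ (1055 / 1000 : ℝ) with hZ
  have hZ1 : 1 ≤ Z := Real.one_le_rpow hR1 (by norm_num)
  have hZ0 : 0 < Z := by linarith
  have hlog : Real.log Z ≤ Z ^ (1 / 1000 : ℝ) / (1 / 1000) :=
    Real.log_le_rpow_div hZ0.le (by norm_num)
  have hZd : 1 ≤ Z ^ (1 / 1000 : ℝ) := Real.one_le_rpow hZ1 (by norm_num)
  have hL0 : 0 ≤ 1 + Real.log Z := by
    have := Real.log_nonneg hZ1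
    linarith
  have hL : 1 + Real.log Z ≤ 1001 * Z ^ (1 / 1000 : ℝ) := by
    have h2 : Z ^ (1 / 1000 : ℝ) / (1 / 1000) = 1000 * Z ^ (1 / 1000 : ℝ) := by ring
    rw [h2] at hlog
    linarith
  have h2 : (1 + Real.log Z) ^ (2 * 49) ≤ (1001 * Z ^ (1 / 1000 : ℝ)) ^ (2 * 49) :=
    pow_le_pow_left₀ hL0 hL _
  have h3 : s ≤ B * Z * (1001 * Z ^ (1 / 1000 : ℝ)) ^ (2 * 49) :=
    h1.trans (mul_le_mul_of_nonneg_left h2 (by positivity))
  have h4 : s ^ 2 ≤ (B * Z * (1001 * Z ^ (1 / 1000 : ℝ)) ^ (2 * 49)) ^ 2 :=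
    pow_le_pow_left₀ hs h3 2
  refine h4.trans ?_
  have h5 : (B * Z * (1001 * Z ^ (1 / 1000 : ℝ)) ^ (2 * 49)) ^ 2 =
      B ^ 2 * 1001 ^ 196 * (Z ^ 2 * (Z ^ (1 / 1000 : ℝ)) ^ 196) := by ring
  rw [h5]
  refine mul_le_mul_of_nonneg_left ?_ (by positivity)
  have h6 : Z ^ 2 * (Z ^ (1 / 1000 : ℝ)) ^ 196 = Z ^ (2196 / 1000 : ℝ) := by
    rw [← Real.rpow_natCast Z 2, ← Real.rpow_natCast (Z ^ (1 / 1000 : ℝ)) 196,
      ← Real.rpow_mul hZ0.le, ← Real.rpow_add hZ0]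
    norm_num
  have h7 : Z ^ (2196 / 1000 : ℝ) =
      (M : ℝ) ^ ((2499 / 10000 : ℝ) * (1055 / 1000) * (2196 / 1000)) := by
    rw [hZ, ← Real.rpow_mul (by linarith), RR, ← Real.rpow_mul hM00.le]
    congr 1
    ring
  rw [h6, h7]
  exact Real.rpow_le_rpow_of_exponent_le hM0 (by norm_num)

theorem hMin : StMin := by
  intro hTup hErr hMer hCl1 hMul hOne hSWs hDDw hLm hOkw hEta ω hω hJ ι _ _ sh hcard ε hε
  obtain ⟨B, hB, hOk⟩ := hOkw
  obtain ⟨hFB, hFs, hOk2⟩ := hOk ι hcard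
  obtain ⟨C, hC, M₀, hE⟩ := hEta ω hω 0
  have hε' : 0 < ε / (2 * (B ^ 2 + 1)) := by positivity
  set ε' := ε / (2 * (B ^ 2 + 1)) with hε'd
  obtain ⟨w1, hw1⟩ := hCl1 hMul hOne hSWs hDDw ι (fun i t => FN i t ^ 2) 1055 (by norm_num)
    (fun i t h => hFs i t (fun h0 => h (by simp only [h0]; norm_num))) ε' hε'
  obtain ⟨w2, hw2⟩ := hErr hMer 49 0 ε' hε'
  refine ⟨max (max w1 w2) 98, fun w hw W v hG => ?_⟩
  have hwa : w1 ≤ w := (le_max_left w1 w2).trans ((le_max_left _ _).trans hw)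
  have hwb : w2 ≤ w := (le_max_right w1 w2).trans ((le_max_left _ _).trans hw)
  have hwc : 98 ≤ w := (le_max_right _ _).trans hw
  have hW : 0 < W := hG.dv.1
  have hWr : (0 : ℝ) < W := by exact_mod_cast hW
  obtain ⟨M1, h1⟩ := hw1 w hwa W hG.dv
  obtain ⟨M2, h2⟩ := hw2 w hwb W hG.dv
  obtain ⟨M3, h3⟩ := hOk2 sh w W v hwc hG
  obtain ⟨M4, h4⟩ := SS_MIN W hW
  obtain ⟨M5, h5⟩ := pow_MIN (C * (B ^ 2 * 1001 ^ 196)) (JJ ω / W * (ε / 2)) (by positivity)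
  refine ⟨max (max (max M₀ M1) (max M2 M3)) (max (max M4 M5) 1), fun M hM => ?_⟩
  have hMa : M₀ ≤ M := by omega
  have hMb : M1 ≤ M := by omega
  have hMc : M2 ≤ M := by omega
  have hMd : M3 ≤ M := by omega
  have hMe : M4 ≤ M := by omega
  have hMf : M5 ≤ M := by omega
  have hMg : 1 ≤ M := by omega
  obtain ⟨hη0, hη1, hf0, hEq, hfp, hsh⟩ := hE M hMa
  obtain ⟨hok, hsum, hRR, htot, hsz⟩ := h3 M hMd
  have hX : 0 ≤ JJ ω * M := by positivity
  have hS1 := Pool.Agent.Helper90.MT.s1 (Pool.Agent.Helper90.MT.qD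
    Pool.Agent.Helper90.MT.tensor Pool.Agent.Helper90.MT.var Pool.Agent.Helper90.MT.formD)
    Pool.Agent.Helper90.MT.cntD (Pw W M) ι (pw W M) sh W v (YY W M) (range (4 * M + 1))
    (eta ω M) (JJ ω * M) C (by rw [hcard]; exact hok) hX hC.le hEq
  have hwt : ∀ n, wt (pw W M) sh (YY W M) n = LF (pw W M) sh (YY W M) n ^ 2 := fun n => rfl
  simp only [hwt] at hS1
  refine hS1.trans ?_
  -- the coefficients
  have hZ1 : 1 ≤ RR M ^ (1055 / 1000 : ℝ) := Real.one_le_rpow hRR.le (by norm_num)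
  have hlam := (hLm (Pw W M) ι (pw W M) (YY W M) B (RR M ^ (1055 / 1000 : ℝ)) hok.prime hok.inj
    hZ1 (fun a => hFB _ _) (fun a ha => by
      have h6 := (hFs _ _ ha).2
      have h7 := hsz a 1055 h6
      have h8 : ((1055 : ℕ) : ℝ) / 1000 = 1055 / 1000 := by norm_num
      rw [h8] at h7
      exact h7)).2.2
  rw [hcard] at hlam
  have hlam2 := err_MIN B hB M hMg _ (Finset.sum_nonneg fun b _ => abs_nonneg _) hlam
  -- the main term
  have hT := hTup (Pw W M) ι (pw W M)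
    (fun x => FN (fun h => cellN M (x h)) (totN M x) ^ 2) (B ^ 2) hok.prime hok.inj
    (by positivity) (fun x => by
      rw [abs_of_nonneg (by positivity)]
      have h6 := hFB (fun h => cellN M (x h)) (totN M x)
      rw [← sq_abs]
      exact pow_le_pow_left₀ (abs_nonneg _) h6 2)
  rw [hcard] at hT
  have hEt := (h2 M hMc).2
  have hC1 := h1 M hMb
  rw [hcard] at hC1
  have hSS : 1 ≤ SS W M := h4 M hMe
  have hSS49 : 1 ≤ SS W M ^ 49 := one_le_pow₀ hSS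
  have hmain : ∑ a : Pw W M → Option ι, YY W M a ^ 2 / szA (pw W M) a ≤ SS W M ^ 49 * (IR ι + ε / 2) := by
    have e1 : B ^ 2 * Et (pw W M) 49 ≤ B ^ 2 * (ε' * SS W M ^ 49) :=
      mul_le_mul_of_nonneg_left hEt (by positivity)
    have e2 := (abs_le.1 hT).2
    have e3 := (abs_le.1 hC1).2
    have e4 : (B ^ 2 + 1) * ε' = ε / 2 := by
      rw [hε'd]
      field_simp
    have e5 : ∑ a : Pw W M → Option ι, YY W M a ^ 2 / szA (pw W M) a =
      ∑ a : Pw W M → Option ι, (fun x : ι → ℕ => FN (fun h => cellN M (x h)) (totN M x) ^ 2) (prt (pw W M) a) /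
        szA (pw W M) a := rfl
    rw [e5]
    have e6 : SS W M ^ 49 * (IR ι + ε / 2) =
        SS W M ^ 49 * IR ι + (B ^ 2 * (ε' * SS W M ^ 49) + ε' * SS W M ^ 49) := by
      rw [← e4]; ring
    rw [e6]
    unfold IR
    linarith
  have hXW : 0 ≤ JJ ω * M / W := by positivity
  have g1 : JJ ω * M / W * ∑ a : Pw W M → Option ι, YY W M a ^ 2 / szA (pw W M) a ≤
      JJ ω * M / W * (SS W M ^ 49 * (IR ι + ε / 2)) := mul_le_mul_of_nonneg_left hmain hXW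
  have g2 : C * (∑ b : Pw W M → Option ι, |lam (pw W M) (YY W M) b|) ^ 2 ≤ JJ ω / W * (ε / 2) * M := by
    refine le_trans ?_ (h5 M hMf)
    have g3 := mul_le_mul_of_nonneg_left hlam2 hC.le
    refine g3.trans (le_of_eq ?_)
    ring
  have g4 : JJ ω / W * (ε / 2) * M ≤ JJ ω * M / W * SS W M ^ 49 * (ε / 2) := by
    have g5 : JJ ω / W * (ε / 2) * M = JJ ω * M / W * 1 * (ε / 2) := by ring
    rw [g5]
    refine mul_le_mul_of_nonneg_right ?_ (by positivity)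
    exact mul_le_mul_of_nonneg_left hSS49 hXW
  have g6 : JJ ω * M / W * SS W M ^ 49 * (IR ι + ε) =
      JJ ω * M / W * (SS W M ^ 49 * (IR ι + ε / 2)) +
        JJ ω * M / W * SS W M ^ 49 * (ε / 2) := by ring
  rw [g6]
  linarith

end Pool.Agent.Helper27.BG
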